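import Pool.Agent.L7h71.GC.Stm

/-! Project GC (helper71, MP_5df2c5_lc): part DEX, each structure is decoded from a code. -/

set_option autoImplicit false

namespace Pool.Agent.L7h60.GC

open Set Function FirstOrder FirstOrder.Language
open Pool.Agent.H533R2.VO (RS)
open Pool.Agent.L7h71.GC
open Pool.Agent.W889.FO.St0 (RF LF gr W D fun_iff)
open Pool.Agent.R617.VT (ar dc cd_e nrm_cd rel_dc)

theorem dc_cd {L : FirstOrder.Language.{0, 0}} [L.IsRelational]
    {e : (Σ n, L.Relations n) → ℕ} (he : Injective e) (S : L.Structure ℕ) :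
    dc he (Pool.Agent.R617.VT.cd he S) = S := by
  refine FirstOrder.Language.Structure.ext ?_ ?_
  · funext n F v
    exact isEmptyElim F
  · funext n R v
    exact propext (cd_e he S R v)

theorem exD (L : FirstOrder.Language.{0, 0}) (M : L.Structure ℕ) :
    ∃ S : (LF L).Structure ℕ, W S ∧ D S = M := by
  let S : (LF L).Structure ℕ :=
    { funMap := fun {_} f => isEmptyElim f
      RelMap := fun {n} Q => match n, Q with
        | _, @RF.rel _ n R => fun v => @Structure.RelMap L ℕ M n R v
        | _, @RF.fn _ n F => fun v =>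
            @Structure.funMap L ℕ M n F (fun i => v i.castSucc) = v (Fin.last n) }
  have hg : ∀ {n : ℕ} (F : L.Functions n) (v : Fin n → ℕ) (b : ℕ),
      gr S F v b ↔ @Structure.funMap L ℕ M n F v = b := by
    intro n F v b
    show @Structure.funMap L ℕ M n F (fun i => Fin.snoc (α := fun _ => ℕ) v b i.castSucc) =
      Fin.snoc (α := fun _ => ℕ) v b (Fin.last n) ↔ _
    simp only [Fin.snoc_castSucc, Fin.snoc_last]
  have hW : W S := ⟨fun F v => ⟨_, (hg F.2 v _).2 rfl⟩, fun F v b b' h1 h2 =>
    ((hg F.2 v b).1 h1).symm.trans ((hg F.2 v b').1 h2)⟩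
  refine ⟨S, hW, ?_⟩
  refine FirstOrder.Language.Structure.ext ?_ ?_
  · funext n F v
    show @Structure.funMap L ℕ (D S) n F v = @Structure.funMap L ℕ M n F v
    rw [fun_iff hW, hg]
  · funext n R v
    rfl

theorem s_DEX : S_DEX := by
  intro L e he S
  obtain ⟨S₀, hW, hD⟩ := exD L S
  refine ⟨Pool.Agent.R617.VT.cd he S₀, nrm_cd he S₀, ?_, ?_⟩
  · rw [dc_cd he S₀]; exact hW
  · rw [dc_cd he S₀]; exact hD

end Pool.Agent.L7h60.GC
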